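import Pool.Agent.Helper88_SA.StmtN

/-!
# Integer checks: lower bound for the pauses of one cycle
-/

namespace SA.H7

set_option maxRecDepth 100000

theorem loD_all : (List.range 9).all (fun i => loDok (79 + i)) = true := by decide +kernel

theorem loU_all : (List.range 9).all (fun i => loUok (79 + i)) = true := by decide +kernel

theorem loO_all : (List.range 9).all (fun i => loOwnok (79 + i)) = true := by decide +kernel

theorem of_all {f : ℕ → Bool} (h : (List.range 9).all (fun i => f (79 + i)) = true) (cb : ℕ)
    (h1 : 79 ≤ cb) (h2 : cb ≤ 87) : f cb = true := by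
  rw [List.all_eq_true] at h
  have := h (cb - 79) (List.mem_range.2 (by omega))
  rwa [show 79 + (cb - 79) = cb by omega] at this

theorem intLo : IntLoStmt :=
  ⟨of_all (f := loDok) loD_all, of_all (f := loUok) loU_all, of_all (f := loOwnok) loO_all⟩

end SA.H7
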