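import Pool.Agent.Helper7_SA.LoPD

/-!
# Integer checks: past cycles, kernel evaluation
-/

namespace SA.H7

set_option maxRecDepth 100000

theorem fok_14 : (List.range 9).all (fun i => fok (79 + i) 14) = true := by
  decide +kernel

theorem fok_15 : (List.range 9).all (fun i => fok (79 + i) 15) = true := by
  decide +kernel

theorem fok_16 : (List.range 9).all (fun i => fok (79 + i) 16) = true := by
  decide +kernel

theorem fok_17 : (List.range 9).all (fun i => fok (79 + i) 17) = true := by
  decide +kernel

theorem fok_18 : (List.range 9).all (fun i => fok (79 + i) 18) = true := by
  decide +kernel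

theorem fok_19 : (List.range 9).all (fun i => fok (79 + i) 19) = true := by
  decide +kernel

theorem fok_20 : (List.range 9).all (fun i => fok (79 + i) 20) = true := by
  decide +kernel

theorem fok_21 : (List.range 9).all (fun i => fok (79 + i) 21) = true := by
  decide +kernel

theorem fok_22 : (List.range 9).all (fun i => fok (79 + i) 22) = true := by
  decide +kernel

theorem fok_23 : (List.range 9).all (fun i => fok (79 + i) 23) = true := by
  decide +kernel

theorem fok_24 : (List.range 9).all (fun i => fok (79 + i) 24) = true := by
  decide +kernel

theorem fok_25 : (List.range 9).all (fun i => fok (79 + i) 25) = true := by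
  decide +kernel

end SA.H7
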