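import Pool.Agent.Helper7_SA.LoPD

/-!
# Integer checks: past cycles, correctness of the fast version
-/

namespace SA.H7

/-- one term -/
def trm (a b x : ℤ) : ℤ := if 0 ≤ x then cdiv (a * x * 10001) (10 ^ 4) else b * x

theorem trm_eq (a b f : ℕ) : trm a b ((f : ℤ) - 2 ^ 39 + 2) =
    (((a * (f + 2 - 549755813888) * 10001 + 9999) / 10000 : ℕ) : ℤ) -
      ((b * (549755813888 - (f + 2)) : ℕ) : ℤ) := by
  unfold trm
  rcases le_or_gt 549755813888 (f + 2) with h | h
  · obtain ⟨y, hy⟩ := Nat.exists_eq_add_of_le h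
    have e1 : f + 2 - 549755813888 = y := by omega
    have e2 : 549755813888 - (f + 2) = 0 := by omega
    have e3 : (f : ℤ) - 2 ^ 39 + 2 = y := by
      have := congrArg (Nat.cast : ℕ → ℤ) hy
      push_cast at this
      linarith
    rw [e1, e2, e3, if_pos (Int.natCast_nonneg y), Nat.mul_zero]
    unfold cdiv
    generalize hA : (a : ℤ) * y * 10001 = A
    have hA' : ((a * y * 10001 : ℕ) : ℤ) = A := by rw [← hA]; push_cast; ring
    generalize a * y * 10001 = N at hA' ⊢
    subst hA'
    omega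
  · obtain ⟨y, hy⟩ := Nat.exists_eq_add_of_le h.le
    have e1 : f + 2 - 549755813888 = 0 := by omega
    have e2 : 549755813888 - (f + 2) = y := by omega
    have hy0 : 0 < y := by omega
    have e3 : (f : ℤ) - 2 ^ 39 + 2 = - (y : ℤ) := by
      have := congrArg (Nat.cast : ℕ → ℤ) hy
      push_cast at this
      linarith
    rw [e1, e2, e3, if_neg (by omega)]
    simp

theorem core (l : List ℕ) : ∀ (m : List ℕ) (W : ℕ), l.length = m.length →
    ((List.range l.length).map (fun s => trm ((l.getD s 0 : ℕ) : ℤ) ((m.getD s 0 : ℕ) : ℤ)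
      ((((W >>> (40 * s)) % 2 ^ 40 : ℕ) : ℤ) - 2 ^ 39 + 2))).sum
      = (posS l W : ℤ) - negS m W := by
  induction l with
  | nil =>
    intro m W h
    cases m with
    | nil => simp [posS_nil, negS_nil]
    | cons b bs => simp at h
  | cons a as ih =>
    intro m W h
    cases m with
    | nil => simp at h
    | cons b bs =>
      have h' : as.length = bs.length := by simpa using h
      rw [List.length_cons, List.range_succ_eq_map, List.map_cons, List.sum_cons, List.map_map]
      have e : (List.map ((fun s => trm (((a :: as).getD s 0 : ℕ) : ℤ) (((b :: bs).getD s 0 : ℕ) : ℤ)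
          ((((W >>> (40 * s)) % 2 ^ 40 : ℕ) : ℤ) - 2 ^ 39 + 2)) ∘ Nat.succ) (List.range as.length)) =
          List.map (fun s => trm ((as.getD s 0 : ℕ) : ℤ) ((bs.getD s 0 : ℕ) : ℤ)
          (((((W / 1099511627776) >>> (40 * s)) % 2 ^ 40 : ℕ) : ℤ) - 2 ^ 39 + 2))
            (List.range as.length) := by
        refine List.map_congr_left fun s _ => ?_
        have : W >>> (40 * (s + 1)) = (W / 1099511627776) >>> (40 * s) := by
          rw [show 40 * (s + 1) = 40 + 40 * s by ring, Nat.shiftRight_add,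
            Nat.shiftRight_eq_div_pow W 40]
        simp only [Function.comp_apply, Nat.succ_eq_add_one, List.getD_cons_succ, this]
      rw [e, ih bs (W / 1099511627776) h']
      have e0 : W >>> (40 * 0) % 2 ^ 40 = W % 1099511627776 := by simp
      simp only [List.getD_cons_zero, e0]
      rw [trm_eq]
      rw [posS_cons, negS_cons]
      push_cast
      ring

theorem field (G s : ℕ) (hs : s < 16) :
    ((G % 2 ^ 640) >>> (40 * s)) % 2 ^ 40 = (G >>> (40 * s)) % 2 ^ 40 := by
  apply Nat.eq_of_testBit_eq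
  intro j
  rw [Nat.testBit_mod_two_pow, Nat.testBit_mod_two_pow, Nat.testBit_shiftRight,
    Nat.testBit_shiftRight, Nat.testBit_mod_two_pow]
  by_cases hj : j < 40
  · have : 40 * s + j < 640 := by omega
    simp [this]
  · simp [hj]

/-- the tables -/
theorem tabH : (List.range 9).all (fun i => (List.range 16).all fun s =>
    (decide (aS X0hi (79 + i) s = (((AHl (79 + i)).getD s 0 : ℕ) : ℤ)) &&
    decide (aS X0lo (79 + i) s = (((ALl (79 + i)).getD s 0 : ℕ) : ℤ)))) = true := by
  decide +kernel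

theorem tabL : (List.range 9).all (fun i =>
    (decide ((AHl (79 + i)).length = 16) && decide ((ALl (79 + i)).length = 16))) = true := by
  decide +kernel

theorem dmax' : (List.range 71).all (fun t => decide (pk dmN 4 t ≤ 9)) = true := by
  decide +kernel

theorem tab (cb s : ℕ) (h1 : 79 ≤ cb) (h2 : cb ≤ 87) (hs : s < 16) :
    aS X0hi cb s = (((AHl cb).getD s 0 : ℕ) : ℤ) ∧ aS X0lo cb s = (((ALl cb).getD s 0 : ℕ) : ℤ) := by
  have h := tabH
  rw [List.all_eq_true] at h
  have h3 := h (cb - 79) (List.mem_range.2 (by omega))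
  rw [List.all_eq_true] at h3
  have h4 := h3 s (List.mem_range.2 hs)
  rw [show 79 + (cb - 79) = cb by omega, Bool.and_eq_true, decide_eq_true_eq,
    decide_eq_true_eq] at h4
  exact h4

theorem tabLen (cb : ℕ) (h1 : 79 ≤ cb) (h2 : cb ≤ 87) :
    (AHl cb).length = 16 ∧ (ALl cb).length = 16 := by
  have h := tabL
  rw [List.all_eq_true] at h
  have h3 := h (cb - 79) (List.mem_range.2 (by omega))
  rw [show 79 + (cb - 79) = cb by omega, Bool.and_eq_true, decide_eq_true_eq,
    decide_eq_true_eq] at h3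
  exact h3

theorem loPast_eq (cb L d : ℕ) (h1 : 79 ≤ cb) (h2 : cb ≤ 87) (hL : 1 ≤ L) (hL' : L ≤ 1185) :
    loPast cb L d = (posS (AHl cb) ((gN d >>> (40 * (L - 1))) % 2 ^ 640) : ℤ) -
      negS (ALl cb) ((gN d >>> (40 * (L - 1))) % 2 ^ 640) := by
  obtain ⟨e1, e2⟩ := tabLen cb h1 h2
  rw [← core _ _ _ (e1.trans e2.symm), e1]
  unfold loPast
  congr 1
  refine List.map_congr_left fun s hs => ?_
  have hs' := List.mem_range.1 hs
  obtain ⟨t1, t2⟩ := tab cb s h1 h2 hs'
  rw [if_pos (by omega), field _ _ hs', ← t1, ← t2]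
  have hn : ((L : ℤ) + (s : ℤ) - 1).toNat = (L - 1) + s := by omega
  rw [hn]
  unfold aXp gT trm
  rw [Nat.mul_add, Nat.shiftRight_add]

theorem loPast_zero (cb L d : ℕ) (hL : 1201 ≤ L) : loPast cb L d = 0 := by
  unfold loPast
  have : ∀ s ∈ List.range 16, (fun s : ℕ => if 0 ≤ (L : ℤ) + s - 1 ∧ (L : ℤ) + s - 1 < 1200 then
      aXp cb s (gT d ((L : ℤ) + s - 1).toNat + 2) else 0) s = (fun _ => (0 : ℤ)) s := by
    intro s _
    exact if_neg (by omega)
  rw [List.map_congr_left this]
  simp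

theorem fok_ok (cb q : ℕ) (h1 : 79 ≤ cb) (h2 : cb ≤ 87) (h : fok cb q = true) :
    loPastok cb q = true := by
  unfold fok at h
  rw [Bool.and_eq_true, List.all_eq_true] at h
  obtain ⟨h0, h⟩ := h
  have h0' := Nat.le_of_ble_eq_true h0
  have eL : (-47 - (cb : ℤ) - qehi q + qF q) / 8 = ((L0 cb q : ℕ) : ℤ) := by
    unfold qehi qF L0
    unfold qeh qFn at h0' ⊢
    omega
  unfold loPastok
  simp only [eL]
  rw [List.all_eq_true]
  intro i hi
  rw [List.all_eq_true]
  intro e he
  have he' := List.mem_range.1 he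
  have hE : e < qeh q + 1 - qel q := by
    unfold qehi qelo at he'
    unfold qeh qel
    omega
  have h3 := h i hi
  rw [List.all_eq_true] at h3
  have h4 := h3 e (List.mem_range.2 hE)
  generalize hL : L0 cb q + i = L at h4
  have hLi : ((L0 cb q : ℕ) : ℤ) + (i : ℤ) = (L : ℤ) := by rw [← hL]; push_cast; rfl
  rw [hLi, List.all_eq_true]
  intro d hd
  have hd' := List.mem_range.1 hd
  rw [decide_eq_true_eq]
  generalize hc : (cb : ℤ) + 8 * (L : ℤ) - qF q + qelo q + (e : ℤ) = c at hd' ⊢
  have hcr : -47 ≤ c ∧ c < 24 := by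
    by_contra hn
    unfold dmt at hd'
    rw [if_neg hn] at hd'
    omega
  unfold dmt at hd'
  rw [if_pos hcr] at hd'
  have ht : (c + 47).toNat = cb + 8 * L + 47 + qel q + e - (qFn q + 16) ∧
      qFn q + 16 ≤ cb + 8 * L + 47 + qel q + e ∧
      cb + 8 * L + 47 + qel q + e < qFn q + 16 + 71 := by
    rw [← hc] at hcr ⊢
    unfold qF qelo at hcr ⊢
    unfold qel qFn
    omega
  obtain ⟨ht1, ht2, ht3⟩ := ht
  unfold fwin at h4
  have n1 : Nat.ble (qFn q + 16) (cb + 8 * L + 47 + qel q + e) = true := Nat.ble_eq_true_of_le ht2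
  have n2 : Nat.ble (qFn q + 16 + 71) (cb + 8 * L + 47 + qel q + e) = false := by
    rw [Bool.eq_false_iff]
    intro hb
    have := Nat.le_of_ble_eq_true hb
    omega
  rw [n1, n2, Bool.not_true, Bool.false_or, Bool.false_or, ← ht1] at h4
  have htb : (c + 47).toNat < 71 := by omega
  have hdm : pk dmN 4 (c + 47).toNat ≤ 9 := by
    have := dmax'
    rw [List.all_eq_true] at this
    exact of_decide_eq_true (this _ (List.mem_range.2 htb))
  have hk : kct (d + 1) c = pk kcN 48 (71 * d + (c + 47).toNat) := by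
    unfold kct
    rw [if_pos ⟨by omega, by omega, hcr.1, hcr.2⟩, Nat.add_sub_cancel]
  rw [hk]
  unfold fcell at h4
  rw [Bool.or_eq_true] at h4
  rcases h4 with h4 | h4
  · rw [loPast_zero cb L (d + 1) (Nat.le_of_ble_eq_true h4), zero_mul]
    positivity
  · rw [Bool.and_eq_true, Bool.and_eq_true, List.all_eq_true] at h4
    obtain ⟨⟨h5, h6⟩, h7⟩ := h4
    have h8 := h7 d (List.mem_range.2 hd')
    unfold fcmp at h8
    have h9 := Nat.le_of_ble_eq_true h8
    rw [loPast_eq cb L (d + 1) h1 h2 (Nat.le_of_ble_eq_true h5) (Nat.le_of_ble_eq_true h6)]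
    change posS (AHl cb) ((gN (d + 1) >>> (40 * (L - 1))) % 2 ^ 640) * (10002 + q) ≤
      chiL.getD q 0 * pk kcN 48 (71 * d + (c + 47).toNat) * 100000000000000000000 +
        negS (ALl cb) ((gN (d + 1) >>> (40 * (L - 1))) % 2 ^ 640) * (10002 + q) at h9
    have h10 : ((posS (AHl cb) ((gN (d + 1) >>> (40 * (L - 1))) % 2 ^ 640) * (10002 + q) : ℕ) : ℤ) ≤
      ((chiL.getD q 0 * pk kcN 48 (71 * d + (c + 47).toNat) * 100000000000000000000 +
        negS (ALl cb) ((gN (d + 1) >>> (40 * (L - 1))) % 2 ^ 640) * (10002 + q) : ℕ) : ℤ) := by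
      exact_mod_cast h9
    push_cast at h10
    push_cast
    linarith

end SA.H7
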