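import Pool.Agent.Helper7_SA.LoPA
import Pool.Agent.Helper7_SA.LoPB
import Pool.Agent.Helper7_SA.LoPE

/-!
# Integer checks: past cycles
-/

namespace SA.H7

theorem of_fok {q : ℕ} (h : (List.range 9).all (fun i => fok (79 + i) q) = true) (cb : ℕ)
    (h1 : 79 ≤ cb) (h2 : cb ≤ 87) : loPastok cb q = true := by
  rw [List.all_eq_true] at h
  have h3 := h (cb - 79) (List.mem_range.2 (by omega))
  rw [show 79 + (cb - 79) = cb by omega] at h3
  exact fok_ok cb q h1 h2 h3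

theorem intLoP : IntLoPastStmt := by
  intro cb q h1 h2 h3 h4
  have hq : q = 1 ∨ q = 2 ∨ q = 3 ∨ q = 4 ∨ q = 5 ∨ q = 6 ∨ q = 7 ∨ q = 8 ∨ q = 9 ∨ q = 10 ∨
      q = 11 ∨ q = 12 ∨ q = 13 ∨ q = 14 ∨ q = 15 ∨ q = 16 ∨ q = 17 ∨ q = 18 ∨ q = 19 ∨ q = 20 ∨
      q = 21 ∨ q = 22 ∨ q = 23 ∨ q = 24 ∨ q = 25 := by omega
  rcases hq with rfl | rfl | rfl | rfl | rfl | rfl | rfl | rfl | rfl | rfl | rfl | rfl | rfl |
    rfl | rfl | rfl | rfl | rfl | rfl | rfl | rfl | rfl | rfl | rfl | rfl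
  · exact of_fok fok_1 cb h1 h2
  · exact of_fok fok_2 cb h1 h2
  · exact of_fok fok_3 cb h1 h2
  · exact of_fok fok_4 cb h1 h2
  · exact of_fok fok_5 cb h1 h2
  · exact of_fok fok_6 cb h1 h2
  · exact of_fok fok_7 cb h1 h2
  · exact of_fok fok_8 cb h1 h2
  · exact of_fok fok_9 cb h1 h2
  · exact of_fok fok_10 cb h1 h2
  · exact of_fok fok_11 cb h1 h2
  · exact of_fok fok_12 cb h1 h2
  · exact of_fok fok_13 cb h1 h2
  · exact of_fok fok_14 cb h1 h2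
  · exact of_fok fok_15 cb h1 h2
  · exact of_fok fok_16 cb h1 h2
  · exact of_fok fok_17 cb h1 h2
  · exact of_fok fok_18 cb h1 h2
  · exact of_fok fok_19 cb h1 h2
  · exact of_fok fok_20 cb h1 h2
  · exact of_fok fok_21 cb h1 h2
  · exact of_fok fok_22 cb h1 h2
  · exact of_fok fok_23 cb h1 h2
  · exact of_fok fok_24 cb h1 h2
  · exact of_fok fok_25 cb h1 h2

end SA.H7
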