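import Pool.Agent.Helper7_SA.LoPD

/-!
# Integer checks: past cycles, kernel evaluation
-/

namespace SA.H7

set_option maxRecDepth 100000

theorem fok_1 : (List.range 9).all (fun i => fok (79 + i) 1) = true := by
  decide +kernel

theorem fok_2 : (List.range 9).all (fun i => fok (79 + i) 2) = true := by
  decide +kernel

theorem fok_3 : (List.range 9).all (fun i => fok (79 + i) 3) = true := by
  decide +kernel

theorem fok_4 : (List.range 9).all (fun i => fok (79 + i) 4) = true := by
  decide +kernel

theorem fok_5 : (List.range 9).all (fun i => fok (79 + i) 5) = true := by
  decide +kernel

theorem fok_6 : (List.range 9).all (fun i => fok (79 + i) 6) = true := by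
  decide +kernel

theorem fok_7 : (List.range 9).all (fun i => fok (79 + i) 7) = true := by
  decide +kernel

theorem fok_8 : (List.range 9).all (fun i => fok (79 + i) 8) = true := by
  decide +kernel

theorem fok_9 : (List.range 9).all (fun i => fok (79 + i) 9) = true := by
  decide +kernel

theorem fok_10 : (List.range 9).all (fun i => fok (79 + i) 10) = true := by
  decide +kernel

theorem fok_11 : (List.range 9).all (fun i => fok (79 + i) 11) = true := by
  decide +kernel

theorem fok_12 : (List.range 9).all (fun i => fok (79 + i) 12) = true := by
  decide +kernel

theorem fok_13 : (List.range 9).all (fun i => fok (79 + i) 13) = true := by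
  decide +kernel

end SA.H7
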