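import Pool.Agent.Helper88_SA.StmtA

/-!
# The modes of the greedy flow: one step (real and complex)
-/

namespace SA.H7

open Finset

/-- Abel summation. -/
theorem abel (u : ℕ → ℝ) (n : ℕ) :
    ∑ i ∈ range n, ((n : ℝ) - i) * (u (i + 1) - u i) = ∑ j ∈ range (n + 1), u j - (n + 1) * u 0 := by
  induction n with
  | zero => simp
  | succ n ih =>
    have h : ∑ i ∈ range (n + 1), (((n + 1 : ℕ) : ℝ) - i) * (u (i + 1) - u i) =
        ∑ i ∈ range (n + 1), ((n : ℝ) - i) * (u (i + 1) - u i) +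
          ∑ i ∈ range (n + 1), (u (i + 1) - u i) := by
      rw [← sum_add_distrib]
      refine sum_congr rfl fun i _ => ?_
      push_cast; ring
    rw [h, sum_range_sub, sum_range_succ, ih, sum_range_succ _ (n + 1)]
    push_cast; ring

theorem icc_range {F : Type*} [AddCommMonoid F] (f : ℕ → F) :
    ∑ d ∈ Icc (1 : ℕ) 55, f d = ∑ i ∈ range 55, f (i + 1) := by
  rw [range_eq_Ico, sum_Ico_add' f 0 55 1]
  rfl

/-- The step in a general field. -/
theorem gen {F : Type*} [Field F] {T x s R R' E E' : F} {N N' p : ℕ → F}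
    (hx1 : x ≠ 1) (hg : gam T x 56 = 0)
    (hN : ∀ d, 1 ≤ d → d ≤ 55 → N' d = (if d = 1 then s else N (d - 1) - p (d - 1)) + p d)
    (h1 : s + ∑ d ∈ Icc (1 : ℕ) 55, (N d - p d) = R - R')
    (h2 : 56 * s + ∑ d ∈ Icc (1 : ℕ) 55, (56 - (d : F)) * (N d - p d) = E)
    (h3 : T * E' = T * E - R') :
    x * (∑ d ∈ Icc (1 : ℕ) 55, N' d * gam T x (56 - d) - (R' + T * E') / (x - 1)
      - R' / (x - 1) ^ 2) =
    (∑ d ∈ Icc (1 : ℕ) 55, N d * gam T x (56 - d) - (R + T * E) / (x - 1) - R / (x - 1) ^ 2)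
      + (x - 1) * ∑ d ∈ Icc (1 : ℕ) 55, p d * gam T x (56 - d) := by
  have hx : x - 1 ≠ 0 := sub_ne_zero.2 hx1
  have hg56 : x * gam T x 55 = 56 * T - x / (x - 1) ^ 2 := by
    have : gam T x 56 = x / (x - 1) ^ 2 - ((55 : ℕ) + 1) * T + x * gam T x 55 := rfl
    rw [hg] at this
    push_cast at this
    linear_combination -this
  -- the main sum
  have hS : x * ∑ d ∈ Icc (1 : ℕ) 55, N' d * gam T x (56 - d) =
      s * (56 * T - x / (x - 1) ^ 2) +
        ∑ d ∈ Icc (1 : ℕ) 55, (N d - p d) * (gam T x (56 - d) - x / (x - 1) ^ 2 + (56 - (d : F)) * T)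
        + x * ∑ d ∈ Icc (1 : ℕ) 55, p d * gam T x (56 - d) := by
    have e1 : ∑ d ∈ Icc (1 : ℕ) 55, N' d * gam T x (56 - d) =
        ∑ d ∈ Icc (1 : ℕ) 55, (if d = 1 then s else N (d - 1) - p (d - 1)) * gam T x (56 - d) +
          ∑ d ∈ Icc (1 : ℕ) 55, p d * gam T x (56 - d) := by
      rw [← sum_add_distrib]
      refine sum_congr rfl fun d hd => ?_
      rw [mem_Icc] at hd
      rw [hN d hd.1 hd.2, add_mul]
    have e2 : ∑ d ∈ Icc (1 : ℕ) 55, (if d = 1 then s else N (d - 1) - p (d - 1)) * gam T x (56 - d) =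
        s * gam T x 55 + ∑ d ∈ Icc (1 : ℕ) 55, (N d - p d) * gam T x (55 - d) := by
      rw [icc_range, icc_range, sum_range_succ' _ 54, sum_range_succ _ 54]
      have z : gam T x (55 - (54 + 1)) = 0 := rfl
      rw [z, mul_zero, add_zero, add_comm]
      congr 1
    have e3 : x * ∑ d ∈ Icc (1 : ℕ) 55, (N d - p d) * gam T x (55 - d) =
        ∑ d ∈ Icc (1 : ℕ) 55,
          (N d - p d) * (gam T x (56 - d) - x / (x - 1) ^ 2 + (56 - (d : F)) * T) := by
      rw [mul_sum]
      refine sum_congr rfl fun d hd => ?_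
      rw [mem_Icc] at hd
      obtain ⟨r, hr⟩ : ∃ r, 55 - d = r := ⟨_, rfl⟩
      have hr' : 56 - d = r + 1 := by omega
      have hdr : (d : F) = 55 - (r : F) := by
        have : d + r = 55 := by omega
        have h := congrArg (Nat.cast : ℕ → F) this
        push_cast at h
        linear_combination h
      rw [hr, hr', hdr]
      have : gam T x (r + 1) = x / (x - 1) ^ 2 - ((r : F) + 1) * T + x * gam T x r := rfl
      rw [this]; ring
    rw [e1, e2, mul_add, mul_add, e3, ← hg56]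
    ring
  have hA : ∑ d ∈ Icc (1 : ℕ) 55, (N d - p d) * (gam T x (56 - d) - x / (x - 1) ^ 2 + (56 - (d : F)) * T)
      = ∑ d ∈ Icc (1 : ℕ) 55, N d * gam T x (56 - d) - ∑ d ∈ Icc (1 : ℕ) 55, p d * gam T x (56 - d)
        - x / (x - 1) ^ 2 * ∑ d ∈ Icc (1 : ℕ) 55, (N d - p d)
        + T * ∑ d ∈ Icc (1 : ℕ) 55, (56 - (d : F)) * (N d - p d) := by
    rw [mul_sum, mul_sum, ← sum_sub_distrib, ← sum_sub_distrib, ← sum_add_distrib]
    refine sum_congr rfl fun d _ => ?_
    ring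
  have h4 : ∑ d ∈ Icc (1 : ℕ) 55, (N d - p d) = R - R' - s := by rw [← h1]; ring
  have h5 : ∑ d ∈ Icc (1 : ℕ) 55, (56 - (d : F)) * (N d - p d) = E - 56 * s := by rw [← h2]; ring
  rw [mul_sub, mul_sub, hS, hA, h4, h5, h3]
  field_simp
  ring

/-- Step of the classes, in terms of the barriers. -/
theorem nd_sub (hSort : SortStmt) (T : ℝ) (n d : ℕ) (h1 : 1 ≤ d) (h2 : d ≤ 55) :
    Nd T n d - pd T n d =
      max (Bn T n - (gr T n).Q d) 0 - max (Bn T n - (gr T n).Q (d - 1)) 0 := by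
  have hs := (hSort T n).1 (d - 1) d (by omega) (by omega)
  unfold Nd pd Bn
  rcases le_total (gr T n).B ((gr T n).Q d) with h | h
  · rw [max_eq_right (a := (gr T n).B - (gr T n).Q d) (by linarith),
      max_eq_right (a := (gr T n).B - (gr T n).Q (d - 1)) (by linarith),
      min_eq_right (by linarith), max_eq_left h]
    ring
  · rcases le_total (gr T n).B ((gr T n).Q (d - 1)) with h' | h'
    · rw [max_eq_left (a := (gr T n).B - (gr T n).Q d) (by linarith),
        max_eq_right (a := (gr T n).B - (gr T n).Q (d - 1)) (by linarith),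
        min_eq_right h', max_eq_right h]
      ring
    · rw [max_eq_left (a := (gr T n).B - (gr T n).Q d) (by linarith),
        max_eq_left (a := (gr T n).B - (gr T n).Q (d - 1)) (by linarith),
        min_eq_left h', max_eq_right hs]
      ring

theorem sum1 (hSort : SortStmt) (hC : CstepStmt) (T : ℝ) (n : ℕ) (hV : Valid T n) :
    max (Bn T n - (gr T n).Q 0) 0 + ∑ d ∈ Icc (1 : ℕ) 55, (Nd T n d - pd T n d) =
      (gr T n).R - (gr T (n + 1)).R := by
  have e : ∑ d ∈ Icc (1 : ℕ) 55, (Nd T n d - pd T n d) =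
      ∑ i ∈ range 55, (max (Bn T n - (gr T n).Q (i + 1)) 0 - max (Bn T n - (gr T n).Q i) 0) := by
    rw [icc_range]
    refine sum_congr rfl fun i hi => ?_
    rw [mem_range] at hi
    rw [nd_sub hSort T n (i + 1) (by omega) (by omega), Nat.add_sub_cancel]
  have hV' : (gr T n).Q 55 ≤ Bn T n := hV
  rw [e, sum_range_sub (fun i => max (Bn T n - (gr T n).Q i) 0), (hC T n hV).1,
    max_eq_left (a := Bn T n - (gr T n).Q 55) (by linarith)]
  ring

theorem sum2 (hSort : SortStmt) (hB : BarStmt) (T : ℝ) (n : ℕ) (hV : Valid T n) :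
    56 * max (Bn T n - (gr T n).Q 0) 0 +
      ∑ d ∈ Icc (1 : ℕ) 55, (56 - (d : ℝ)) * (Nd T n d - pd T n d) = (gr T n).E := by
  have e : ∑ d ∈ Icc (1 : ℕ) 55, (56 - (d : ℝ)) * (Nd T n d - pd T n d) =
      ∑ i ∈ range 55, (((55 : ℕ) : ℝ) - i) *
        (max (Bn T n - (gr T n).Q (i + 1)) 0 - max (Bn T n - (gr T n).Q i) 0) := by
    rw [icc_range]
    refine sum_congr rfl fun i hi => ?_
    rw [mem_range] at hi
    rw [nd_sub hSort T n (i + 1) (by omega) (by omega), Nat.add_sub_cancel]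
    push_cast; ring
  rw [e, abel (fun i => max (Bn T n - (gr T n).Q i) 0) 55, ← (hB T n hV).1]
  push_cast; ring

theorem modR (hSort : SortStmt) (hB : BarStmt) (hC : CstepStmt) (hP : PdStmt) : ModRStmt := by
  intro T x n hT _ hx1 hg hV
  have hVn := hV n le_rfl
  unfold PhiR
  refine gen (s := max (Bn T n - (gr T n).Q 0) 0) (p := pd T n) hx1 hg
    (hP T n hV).2.2.2.2 (sum1 hSort hC T n hVn) (sum2 hSort hB T n hVn) ?_
  rw [(hC T n hVn).2.1]
  field_simp

theorem modC (hSort : SortStmt) (hB : BarStmt) (hC : CstepStmt) (hP : PdStmt) : ModCStmt := by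
  intro T x n hT _ hx1 hg hV
  have hVn := hV n le_rfl
  have h := gen (T := (T : ℂ)) (x := x) (s := ((max (Bn T n - (gr T n).Q 0) 0 : ℝ) : ℂ))
    (R := ((gr T n).R : ℂ)) (R' := ((gr T (n + 1)).R : ℂ)) (E := ((gr T n).E : ℂ))
    (E' := ((gr T (n + 1)).E : ℂ)) (N := fun d => (Nd T n d : ℂ))
    (N' := fun d => (Nd T (n + 1) d : ℂ)) (p := fun d => (pd T n d : ℂ)) hx1 hg ?_ ?_ ?_ ?_
  · unfold PhiC
    simp only [Complex.ofReal_add, Complex.ofReal_mul] at h ⊢
    exact h
  · intro d h1 h2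
    have := (hP T n hV).2.2.2.2 d h1 h2
    rw [this]
    split_ifs
    · push_cast; ring
    · push_cast; ring
  · have := congrArg (fun r : ℝ => (r : ℂ)) (sum1 hSort hC T n hVn)
    simp only [Complex.ofReal_add, Complex.ofReal_sub, Complex.ofReal_sum] at this
    exact this
  · have := congrArg (fun r : ℝ => (r : ℂ)) (sum2 hSort hB T n hVn)
    simp only [Complex.ofReal_add, Complex.ofReal_sub, Complex.ofReal_sum, Complex.ofReal_mul,
      Complex.ofReal_ofNat, Complex.ofReal_natCast] at this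
    exact this
  · have : T * (gr T (n + 1)).E = T * (gr T n).E - (gr T (n + 1)).R := by
      rw [(hC T n hVn).2.1]
      field_simp
    exact_mod_cast congrArg (fun r : ℝ => (r : ℂ)) this

end SA.H7
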